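import Pool.Agent.W142.TF.It
import Pool.Agent.W505.FN.NullS

/-!
# TF-BLO: blow-up of a configuration of positive iterated mean
-/

set_option autoImplicit false
open Filter Topology Finset
open scoped BoundedContinuousFunction

namespace Pool.Agent.W597.TF

open Pool.Agent.W634.BQ Pool.Agent.W505.BQ Pool.Agent.W27.FB Pool.Agent.W142.TF

/-- iterated mean of the variables `u, ..., u + k - 1`, the variable `u` outermost -/
noncomputable def Jt (m : ℕ → ((ℤ →ᵇ ℝ) →ₗ[ℝ] ℝ)) : ℕ → ℕ → ((ℕ → ℤ) → ℝ) → ℝ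
  | _, 0, F => F 0
  | u, k + 1, F => m u (toB (fun t => Jt m (u + 1) k (fun a => F (Function.update a u t))))

variable {m : ℕ → ((ℤ →ᵇ ℝ) →ₗ[ℝ] ℝ)}

/-- the innermost variable can be split off -/
theorem Jt_last (k : ℕ) : ∀ (u : ℕ) (F : (ℕ → ℤ) → ℝ), Jt m u (k + 1) F =
    Jt m u k (fun a => m (u + k) (toB (fun t => F (Function.update a (u + k) t)))) := by
  induction k with
  | zero => intro u F; rfl
  | succ k ih =>
    intro u F
    show m u (toB (fun t => Jt m (u + 1) (k + 1) (fun a => F (Function.update a u t)))) =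
      m u (toB (fun t => Jt m (u + 1) k (fun a =>
        m (u + (k + 1)) (toB (fun s => F (Function.update (Function.update a u t) (u + (k + 1)) s))))))
    congr 2
    funext t
    rw [ih]
    congr 1
    funext a
    have e : u + 1 + k = u + (k + 1) := by omega
    rw [e]
    congr 2
    funext s
    rw [Function.update_comm (by omega)]

theorem It_eq (n : ℕ) : ∀ F : (ℕ → ℤ) → ℝ, It m n F = Jt m 0 n F := by
  induction n with
  | zero => intro F; rfl
  | succ n ih =>
    intro F
    rw [Jt_last, Nat.zero_add, ← ih]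
    rfl

theorem Jt_abs (hm : ∀ j, IsMean (m j)) (k : ℕ) : ∀ (u : ℕ) {F : (ℕ → ℤ) → ℝ} {C : ℝ},
    (∀ a, |F a| ≤ C) → |Jt m u k F| ≤ C := by
  induction k with
  | zero => intro u F C hF; exact hF 0
  | succ k ih =>
    intro u F C hF
    exact m_toB_abs (hm u) fun t => ih (u + 1) fun a => hF _

theorem Jt_mono (hm : ∀ j, IsMean (m j)) (k : ℕ) : ∀ (u : ℕ) {F G : (ℕ → ℤ) → ℝ} {C D : ℝ},
    (∀ a, |F a| ≤ C) → (∀ a, |G a| ≤ D) → (∀ a, F a ≤ G a) → Jt m u k F ≤ Jt m u k G := by
  induction k with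
  | zero => intro u F G C D _ _ h; exact h 0
  | succ k ih =>
    intro u F G C D hF hG h
    exact m_toB_mono (hm u) (fun t => Jt_abs hm k (u + 1) fun a => hF _)
      (fun t => Jt_abs hm k (u + 1) fun a => hG _) fun t => ih (u + 1) (fun a => hF _) (fun a => hG _)
        fun a => h _

theorem Jt_add (hm : ∀ j, IsMean (m j)) (k : ℕ) : ∀ (u : ℕ) {F G : (ℕ → ℤ) → ℝ} {C D : ℝ},
    (∀ a, |F a| ≤ C) → (∀ a, |G a| ≤ D) → Jt m u k (fun a => F a + G a) = Jt m u k F + Jt m u k G := by
  induction k with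
  | zero => intro u F G C D _ _; rfl
  | succ k ih =>
    intro u F G C D hF hG
    show m u _ = m u _ + m u _
    rw [← map_add, ← toB_add (fun t => Jt_abs hm k (u + 1) fun a => hF _)
      (fun t => Jt_abs hm k (u + 1) fun a => hG _)]
    congr 2
    funext t
    exact ih (u + 1) (fun a => hF _) (fun a => hG _)

theorem Jt_smul (hm : ∀ j, IsMean (m j)) (k : ℕ) : ∀ (u : ℕ) {F : (ℕ → ℤ) → ℝ} {C : ℝ},
    (∀ a, |F a| ≤ C) → ∀ c : ℝ, Jt m u k (fun a => c * F a) = c * Jt m u k F := by
  induction k with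
  | zero => intro u F C _ c; rfl
  | succ k ih =>
    intro u F C hF c
    show m u _ = c * m u _
    rw [← smul_eq_mul, ← map_smul, ← toB_smul (fun t => Jt_abs hm k (u + 1) fun a => hF _)]
    congr 2
    funext t
    exact ih (u + 1) (fun a => hF _) c

theorem Jt_const (hm : ∀ j, IsMean (m j)) (k : ℕ) (c : ℝ) : ∀ u : ℕ, Jt m u k (fun _ => c) = c := by
  induction k with
  | zero => intro u; rfl
  | succ k ih =>
    intro u
    show m u (toB (fun t => Jt m (u + 1) k (fun _ => c))) = c
    simp only [ih]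
    exact m_toB_const (hm u) c

theorem Jt_sum (hm : ∀ j, IsMean (m j)) (k u : ℕ) {ι : Type*} (s : Finset ι) (F : ι → (ℕ → ℤ) → ℝ)
    {C : ℝ} (hF : ∀ i ∈ s, ∀ a, |F i a| ≤ C) :
    Jt m u k (fun a => ∑ i ∈ s, F i a) = ∑ i ∈ s, Jt m u k (F i) := by
  classical
  induction s using Finset.induction_on with
  | empty => simp [Jt_const hm]
  | insert i s hi ih =>
    have h1 : ∀ j ∈ s, ∀ a, |F j a| ≤ C := fun j hj => hF j (mem_insert_of_mem hj)
    have h2 : ∀ a, |∑ j ∈ s, F j a| ≤ s.card * C := fun a => by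
      refine (abs_sum_le_sum_abs _ _).trans ?_
      have := sum_le_card_nsmul s (fun j => |F j a|) C (fun j hj => h1 j hj a)
      rwa [nsmul_eq_mul] at this
    simp only [sum_insert hi]
    rw [Jt_add hm k u (hF i (mem_insert_self _ _)) h2, ih h1]

open Classical in
/-- indicator of a proposition -/
noncomputable def oi (p : Prop) : ℝ := if p then 1 else 0

theorem oi_abs (p : Prop) : |oi p| ≤ 1 := by
  unfold oi
  split_ifs <;> norm_num

theorem oi_nonneg (p : Prop) : 0 ≤ oi p := by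
  unfold oi
  split_ifs <;> norm_num

theorem oi_pos {p : Prop} (h : p) : oi p = 1 := by
  unfold oi
  exact if_pos h

theorem oi_neg {p : Prop} (h : ¬ p) : oi p = 0 := by
  unfold oi
  exact if_neg h

/-- finite sets are null -/
theorem fin_null {X : Set ℤ} (hX : X.Finite) : Null X := by
  intro ε hε
  obtain ⟨L0, hL0⟩ := exists_nat_ge ((X.ncard : ℝ) / ε)
  refine ⟨L0, fun L hL u => ?_⟩
  have h1 : {n : ℕ | n < L ∧ u + (n : ℤ) ∈ X}.ncard ≤ X.ncard := by
    refine Set.ncard_le_ncard_of_injOn (fun n : ℕ => u + (n : ℤ)) (fun n hn => hn.2) ?_ hX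
    intro a _ b _ hab
    simp only at hab
    omega
  have h2 : (X.ncard : ℝ) ≤ ε * L := by
    rw [div_le_iff₀ hε] at hL0
    have h3 : (L0 : ℝ) ≤ L := by exact_mod_cast hL
    nlinarith
  exact le_trans (by exact_mod_cast h1) h2

/-- many values of a function of positive mean are large -/
theorem many {μ : (ℤ →ᵇ ℝ) →ₗ[ℝ] ℝ} (hμ : IsMean μ) {G : ℤ → ℝ} (hG : ∀ t, |G t| ≤ 1)
    (hpos : 0 < μ (toB G)) : {t | μ (toB G) / 2 ≤ G t}.Infinite := by
  intro hfin
  set I := μ (toB G) with hI
  set X := {t | I / 2 ≤ G t} with hX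
  have h1 : μ (toB G) ≤ μ ((I / 2) • 1 + ind X) := by
    refine m_mono hμ fun t => ?_
    rw [toB_apply hG]
    simp only [BoundedContinuousFunction.coe_add, Pi.add_apply, BoundedContinuousFunction.coe_smul,
      smul_eq_mul, BoundedContinuousFunction.coe_one, Pi.one_apply, mul_one]
    by_cases ht : t ∈ X
    · rw [ind_mem ht]
      have := (abs_le.1 (hG t)).2
      linarith
    · rw [ind_notMem ht, add_zero]
      exact (not_le.1 ht).le
  rw [map_add, m_const hμ, Pool.Agent.W505.FN.nul.1 μ hμ X (fin_null hfin), add_zero] at h1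
  linarith

/-- one step -/
theorem step (hm : ∀ j, IsMean (m j)) (K k u : ℕ) (E : (ℕ → ℤ) → Prop)
    (hpos : 0 < Jt m u (k + 1) (fun a => oi (E a))) :
    ∃ T : Finset ℤ, T.card = K ∧
      0 < Jt m (u + 1) k (fun a => oi (∀ t ∈ T, E (Function.update a u t))) := by
  classical
  set G : ℤ → ℝ := fun t => Jt m (u + 1) k (fun a => oi (E (Function.update a u t))) with hG
  have hGb : ∀ t, |G t| ≤ 1 := fun t => Jt_abs hm k (u + 1) fun a => oi_abs _
  have hI : 0 < m u (toB G) := hpos
  set I := m u (toB G) with hIdef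
  obtain ⟨N, hN⟩ := exists_nat_gt ((K : ℝ) * 2 / I)
  obtain ⟨S, hS, hScard⟩ := (many (hm u) hGb hI).exists_subset_card_eq N
  by_contra hcon
  push Not at hcon
  have hT : ∀ T ∈ S.powersetCard K,
      Jt m (u + 1) k (fun a => oi (∀ t ∈ T, E (Function.update a u t))) ≤ 0 :=
    fun T hT => hcon T (mem_powersetCard.1 hT).2
  -- the number of good points
  have e1 : Jt m (u + 1) k (fun a => ∑ t ∈ S, oi (E (Function.update a u t))) = ∑ t ∈ S, G t :=
    Jt_sum hm k (u + 1) S (fun t a => oi (E (Function.update a u t))) (C := 1) fun t _ a => oi_abs _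
  have e2 : (N : ℝ) * (I / 2) ≤ ∑ t ∈ S, G t := by
    rw [← hScard, ← nsmul_eq_mul]
    exact card_nsmul_le_sum _ _ _ fun t ht => hS ht
  have hb1 : ∀ a : ℕ → ℤ, |∑ t ∈ S, oi (E (Function.update a u t))| ≤ S.card * (1 : ℝ) := fun a => by
    refine (abs_sum_le_sum_abs _ _).trans ?_
    have := sum_le_card_nsmul S (fun t => |oi (E (Function.update a u t))|) 1 (fun j _ => oi_abs _)
    rwa [nsmul_eq_mul] at this
  have hb2 : ∀ a : ℕ → ℤ, |∑ T ∈ S.powersetCard K, oi (∀ t ∈ T, E (Function.update a u t))| ≤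
      (S.powersetCard K).card * (1 : ℝ) := fun a => by
    refine (abs_sum_le_sum_abs _ _).trans ?_
    have := sum_le_card_nsmul (S.powersetCard K)
      (fun T => |oi (∀ t ∈ T, E (Function.update a u t))|) 1 (fun j _ => oi_abs _)
    rwa [nsmul_eq_mul] at this
  have hb3 : ∀ a : ℕ → ℤ, |(N : ℝ) * ∑ T ∈ S.powersetCard K, oi (∀ t ∈ T, E (Function.update a u t))| ≤
      N * ((S.powersetCard K).card * (1 : ℝ)) := fun a => by
    rw [abs_mul, Nat.abs_cast]
    exact mul_le_mul_of_nonneg_left (hb2 a) (Nat.cast_nonneg _)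
  have hb4 : ∀ a : ℕ → ℤ, |(K : ℝ)| ≤ K := fun a => by rw [Nat.abs_cast]
  have e3 : Jt m (u + 1) k (fun a => ∑ t ∈ S, oi (E (Function.update a u t))) ≤
      Jt m (u + 1) k (fun a => (K : ℝ) +
        N * ∑ T ∈ S.powersetCard K, oi (∀ t ∈ T, E (Function.update a u t))) := by
    refine Jt_mono hm k (u + 1) hb1 (D := K + N * ((S.powersetCard K).card * (1 : ℝ)))
      (fun a => (abs_add_le _ _).trans (add_le_add (hb4 a) (hb3 a))) fun a => ?_
    set Z := S.filter (fun t => E (Function.update a u t)) with hZ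
    have c1 : ∑ t ∈ S, oi (E (Function.update a u t)) = Z.card := by
      rw [hZ, card_eq_sum_ones, Nat.cast_sum, sum_filter]
      refine sum_congr rfl fun t _ => ?_
      by_cases h : E (Function.update a u t)
      · rw [oi_pos h, if_pos h, Nat.cast_one]
      · rw [oi_neg h, if_neg h]
    rw [c1]
    have c2 : 0 ≤ ∑ T ∈ S.powersetCard K, oi (∀ t ∈ T, E (Function.update a u t)) :=
      sum_nonneg fun T _ => oi_nonneg _
    by_cases hlt : Z.card < K
    · have c3 : (Z.card : ℝ) ≤ K := by exact_mod_cast hlt.le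
      have c4 : 0 ≤ (N : ℝ) * ∑ T ∈ S.powersetCard K, oi (∀ t ∈ T, E (Function.update a u t)) :=
        mul_nonneg (Nat.cast_nonneg _) c2
      linarith
    · obtain ⟨T, hTZ, hTc⟩ := exists_subset_card_eq (not_lt.1 hlt)
      have c3 : T ∈ S.powersetCard K :=
        mem_powersetCard.2 ⟨hTZ.trans (filter_subset _ _), hTc⟩
      have c4 : ∀ t ∈ T, E (Function.update a u t) := fun t ht => (mem_filter.1 (hTZ ht)).2
      have c5 : (1 : ℝ) ≤ ∑ T ∈ S.powersetCard K, oi (∀ t ∈ T, E (Function.update a u t)) := by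
        have := single_le_sum (f := fun T => oi (∀ t ∈ T, E (Function.update a u t)))
          (fun T _ => oi_nonneg _) c3
        rw [oi_pos c4] at this
        exact this
      have c6 : (Z.card : ℝ) ≤ N := by
        rw [← hScard]
        exact_mod_cast card_le_card (filter_subset _ _)
      have c7 : (0 : ℝ) ≤ K := Nat.cast_nonneg _
      have c8 : (0 : ℝ) ≤ N := Nat.cast_nonneg _
      nlinarith
  rw [e1, Jt_add hm k (u + 1) hb4 hb3, Jt_const hm, Jt_smul hm k (u + 1) hb2,
    Jt_sum hm k (u + 1) _ _ (C := 1) fun T _ a => oi_abs _] at e3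
  have e4 : ∑ T ∈ S.powersetCard K,
      Jt m (u + 1) k (fun a => oi (∀ t ∈ T, E (Function.update a u t))) ≤ 0 := sum_nonpos hT
  have e5 : (N : ℝ) * ∑ T ∈ S.powersetCard K,
      Jt m (u + 1) k (fun a => oi (∀ t ∈ T, E (Function.update a u t))) ≤ 0 :=
    mul_nonpos_of_nonneg_of_nonpos (Nat.cast_nonneg _) e4
  rw [div_lt_iff₀ hI] at hN
  linarith

/-- the points of a finite set in some order -/
theorem enum {K : ℕ} {T : Finset ℤ} (hT : T.card = K) :
    ∃ A : ℕ → ℤ, Set.InjOn A {k | k < K} ∧ ∀ k, k < K → A k ∈ T := by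
  classical
  have e : Fin K ≃ T := (T.equivFinOfCardEq hT).symm
  refine ⟨fun k => if h : k < K then (e ⟨k, h⟩ : ℤ) else 0, ?_, ?_⟩
  · intro a ha b hb hab
    simp only [dif_pos (show a < K from ha), dif_pos (show b < K from hb)] at hab
    have h1 := e.injective (Subtype.ext hab)
    exact congrArg Fin.val h1
  · intro k hk
    simp only [dif_pos hk]
    exact (e ⟨k, hk⟩).2

theorem main_aux (hm : ∀ j, IsMean (m j)) (K : ℕ) (k : ℕ) : ∀ (u : ℕ) (E : (ℕ → ℤ) → Prop),
    0 < Jt m u k (fun a => oi (E a)) → ∃ A : ℕ → ℕ → ℤ, (∀ j, Set.InjOn (A j) {k | k < K}) ∧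
    ∀ f : ℕ → ℕ, (∀ j, u ≤ j → j < u + k → f j < K) →
      E (fun j => if u ≤ j ∧ j < u + k then A j (f j) else 0) := by
  induction k with
  | zero =>
    intro u E hE
    refine ⟨fun _ k => (k : ℤ), fun j a _ b _ hab => by simpa using hab, fun f _ => ?_⟩
    have h1 : (fun j => if u ≤ j ∧ j < u + 0 then ((f j : ℕ) : ℤ) else 0) = 0 := by
      funext j
      rw [if_neg (by omega)]
      rfl
    rw [h1]
    by_contra hcon
    have h2 : Jt m u 0 (fun a => oi (E a)) = oi (E 0) := rfl
    rw [h2, oi_neg hcon] at hE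
    exact lt_irrefl _ hE
  | succ k ih =>
    intro u E hE
    obtain ⟨T, hT, hpos⟩ := step hm K k u E hE
    obtain ⟨A, hA, hA'⟩ := ih (u + 1) _ hpos
    obtain ⟨B, hB, hB'⟩ := enum hT
    refine ⟨Function.update A u B, fun j => ?_, fun f hf => ?_⟩
    · by_cases hj : j = u
      · rw [hj, Function.update_self]
        exact hB
      · rw [Function.update_of_ne hj]
        exact hA j
    · have h1 := hA' f (fun j hj1 hj2 => hf j (by omega) (by omega)) (B (f u))
        (hB' _ (hf u le_rfl (by omega)))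
      convert h1 using 1
      funext j
      by_cases hj : j = u
      · subst hj
        rw [if_pos (by omega), Function.update_self, Function.update_self]
      · rw [Function.update_of_ne hj, Function.update_of_ne hj]
        by_cases h2 : u ≤ j ∧ j < u + (k + 1)
        · rw [if_pos h2, if_pos (by omega)]
        · rw [if_neg h2, if_neg (by omega)]

theorem blo : S_blo := by
  classical
  intro m hm n K E hE
  have h1 : (fun a : ℕ → ℤ => if E a then (1 : ℝ) else 0) = fun a => oi (E a) := by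
    funext a
    unfold oi
    by_cases h : E a
    · rw [if_pos h]
    · rw [if_neg h]
  have h2 : 0 < Jt m 0 n (fun a => oi (E a)) := by
    rw [← It_eq, ← h1]
    convert hE
  obtain ⟨A, hA, hA'⟩ := main_aux hm K n 0 E h2
  refine ⟨A, hA, fun f hf => ?_⟩
  have h3 := hA' f (fun j _ hj => hf j (by omega))
  convert h3 using 1
  funext j
  by_cases hj : j < n
  · rw [if_pos hj, if_pos (by omega)]
  · rw [if_neg hj, if_neg (by omega)]

end Pool.Agent.W597.TF
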